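import Mathlib
import Pool.Agent.Y696.CTP.Cnt
import Pool.Agent.Y703.CX.Rank
import Pool.Agent.Y703.CX.Fin
import Pool.Agent.V11291.FK.Cub3

/-!
# The strong Birch and Swinnerton-Dyer conjecture over `ℚ`, the 3-part, for the cubic twists by the
# numbers with a fixed number of prime factors from an arbitrary set of primes of positive density

`E_N : y² + N y = x³` is `3`-isogenous to `x³ + y³ = N`.  The numbers `N` are squarefree, prime to `3`,
not `±1` modulo `9`, and have exactly one prime factor `2` modulo `3`.  We fix the number `k` of the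
prime factors of `N` which are `1` modulo `3` and an arbitrary set `S` of primes.

The 3-part of the conjecture holds for `E_N` with trivial terms (`ThreePart N`) if the equation is
minimal, `L(E_N, s)` is entire with `L(E_N, 1) ≠ 0`, the group `E_N(ℚ)` is finite (order = rank = 0), the
`3`-primary part of `Ш(E_N/ℚ)` is zero, and `L(E_N, 1) |E_N(ℚ)_tors|² / (Ω ∏ c_p)`, which is the order of
`Ш` according to the conjecture, is a unit at all places above `3`.

Theorem.  Suppose that there are `k` residue classes modulo `9` which are `1` modulo `3` and one residue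
class modulo `9` which is `2` modulo `3`, with product not `8` modulo `9`, each of which contains at
least a positive proportion of the primes up to `Y` in `S`, for all large `Y`.  Then the number of the `N`
up to `X` with `k` prime factors `1` modulo `3` and all prime factors in `S` has the order of magnitude
`X (log log X)^k / log X`, and the proportion of those `N` for which `ThreePart N` holds tends to the
rational number `∏_{i ≤ k} (1 - 3^{-i})`, which is `1`, `2/3`, `16/27`, `416/729`, … for `k = 0, 1, 2, 3, …`.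

The criterion for one `N` (`ThreePart N` if and only if `N` has no splitting) is a starting result
(`ThreePartCubicTwists` in this folder, library `Pool.Agent.Y703.CT.fin_all`); the law for the numbers
without splitting in the sparse families is in `Pool.Agent.V11291.FK` (helper291 and the library), where
it is used for the rank part over the cubic fields.
-/

set_option autoImplicit false

open Finset Filter Topology

namespace Pool.Agent.Results.MP_4a9ea6_nt.FixedNumberCubicTwists

open WeierstrassCurve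
open Pool.Agent.W97.MT (IsGloballyMinimal)

/-- The curve `E_N : y² + N y = x³`, as an equation over `ℤ`. -/
def twist (N : ℕ) : WeierstrassCurve ℤ := ⟨0, 0, (N : ℤ), 0, 0⟩

/-- `E_N` over `ℚ`. -/
abbrev twistQ (N : ℕ) : WeierstrassCurve ℚ := (twist N).map (Int.castRingHom ℚ)

/-- `N` is squarefree, not divisible by `3`, not `±1` modulo `9`, and divisible by exactly one prime
that is `2` modulo `3`. -/
def InClass (N : ℕ) : Prop :=
  Squarefree N ∧ ¬ 3 ∣ N ∧ N % 9 ≠ 1 ∧ N % 9 ≠ 8 ∧
    ∃ q : ℕ, q.Prime ∧ q % 3 = 2 ∧ q ∣ N ∧ ∀ p : ℕ, p.Prime → p ∣ N → p ≠ q → p % 3 = 1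

/-- In every factorization of `N` in coprime factors `d₀ d₁ d₂` for which `d₁ d₂²`, `d₂ d₀²`,
`d₀ d₁²` are cubes modulo the primes dividing `d₀`, `d₁`, `d₂` respectively, two factors are `1`. -/
def HasNoSplitting (N : ℕ) : Prop :=
  ∀ d : ZMod 3 → ℕ, ∏ c, d c = N → (∀ c c', c ≠ c' → Nat.Coprime (d c) (d c')) →
    (∀ (c : ZMod 3) (p : ℕ), p.Prime → p ∣ d c →
      ∃ x : ℤ, (p : ℤ) ∣ (d (c + 1) : ℤ) * (d (c + 2) : ℤ) ^ 2 - x ^ 3) →
    ∃ c, ∀ c', c' ≠ c → d c' = 1

/-- `E_N(ℚ)` is finite and the `3`-primary part of `Ш(E_N/ℚ)` is zero. -/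
def TrivialThree (N : ℕ) : Prop :=
  Finite (twistQ N).toAffine.Point ∧
    ∀ (n : ℕ) (x : Pool.Agent.TH841.SH.D.Sha (twistQ N)), 3 ^ n • x = 0 → x = 0

/-- `L` is entire and equal to the Euler product of `E_N` (with the factors `1 - a_p p^{-s}` at the
primes that divide the discriminant) for `Re s > 3 / 2`. -/
def IsL (N : ℕ) (L : ℂ → ℂ) : Prop :=
  Differentiable ℂ L ∧ ∀ s : ℂ, 3 / 2 < s.re →
    HasProd (fun p : Nat.Primes => (1 - (Pool.Agent.W97.MT.ap (twist N) p : ℂ) * ((p : ℕ) : ℂ) ^ (-s) +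
      (if ((p : ℕ) : ℤ) ∣ (twist N).Δ then 0 else ((p : ℕ) : ℂ) ^ (1 - 2 * s)))⁻¹) (L s)

/-- `Ω = ∫_{E_N(ℝ)} |ω|` with the invariant differential `ω` of the minimal equation -/
noncomputable def Omega (N : ℕ) : ℝ := Pool.Agent.Y700.Omega (twist N)

/-- the product of the Tamagawa numbers -/
noncomputable def tam (N : ℕ) : ℕ := Pool.Agent.Y703.CT.tamProd (twist N)

/-- the order of the torsion subgroup of `E_N(ℚ)` -/
noncomputable def torsion (N : ℕ) : ℕ :=
  Nat.card (AddCommGroup.torsion (twistQ N).toAffine.Point)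

/-- The order of `Ш(E_N/ℚ)` predicted by the formula in rank zero, if `l` is the value of the
`L`-function at `1`: `l |E_N(ℚ)_tors|² / (Ω ∏ c_p)`. -/
noncomputable def predicted (N : ℕ) (l : ℂ) : ℂ :=
  l * (torsion N : ℂ) ^ 2 / (((Omega N : ℝ) : ℂ) * (tam N : ℂ))

/-- `u` is integral at all places above `3`: for some `n` prime to `3` the number `n u` is an
algebraic integer. -/
def Integral3 (u : ℂ) : Prop := ∃ n : ℤ, IsCoprime 3 n ∧ IsIntegral ℤ ((n : ℂ) * u)

/-- `u` is a unit at all places above `3`: it is not zero, and for some `n` prime to `3` the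
numbers `n u` and `n / u` are algebraic integers. -/
def Unit3 (u : ℂ) : Prop :=
  u ≠ 0 ∧ ∃ n : ℤ, IsCoprime 3 n ∧ IsIntegral ℤ ((n : ℂ) * u) ∧ IsIntegral ℤ ((n : ℂ) * u⁻¹)

/-- The 3-part of the conjecture holds with trivial terms: the equation of `E_N` is minimal, `L(E_N, s)` is
entire and not zero at `1`, `E_N(ℚ)` is finite, the `3`-primary part of `Ш(E_N/ℚ)` is zero, and the
predicted order of `Ш(E_N/ℚ)` is a unit at all places above `3`. -/
def ThreePart (N : ℕ) : Prop :=
  IsGloballyMinimal (twist N) ∧ TrivialThree N ∧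
    ∃ L : ℂ → ℂ, IsL N L ∧ L 1 ≠ 0 ∧ Unit3 (predicted N (L 1))

/-- the number of the prime factors of `N` which are `1` modulo `3` -/
def number (N : ℕ) : ℕ := (N.primeFactors.filter fun p => p % 3 = 1).card

/-- the `N` of the class with all the prime factors in `S`, exactly `k` of them `1` modulo `3` -/
def Family (S : Set ℕ) (k N : ℕ) : Prop :=
  InClass N ∧ (∀ p : ℕ, p.Prime → p ∣ N → p ∈ S) ∧ number N = k

/-- at least a positive proportion of the primes up to `Y` is in `S` and `r` modulo `9`, for all large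
`Y` -/
def Dense (S : Set ℕ) (r : ℕ) : Prop := ∃ (δ : ℝ) (Y₀ : ℕ), 0 < δ ∧ ∀ Y : ℕ, Y₀ ≤ Y →
  δ * (Y / Real.log Y) ≤ (Nat.card {p : ℕ // p ≤ Y ∧ p ∈ S ∧ p.Prime ∧ p % 9 = r} : ℝ)

/-- the condition on `S`: there are residue classes `r i` (for `i < k`) and `s` modulo `9` with many
primes in `S`, `r i ≡ 1` and `s ≡ 2` modulo `3`, whose product is not `8` modulo `9` -/
def Rich (S : Set ℕ) (k : ℕ) : Prop :=
  ∃ (r : Fin k → ℕ) (s : ℕ), (∀ i, r i % 3 = 1 ∧ Dense S (r i)) ∧ s % 3 = 2 ∧ Dense S s ∧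
    (∏ i, r i) * s % 9 ≠ 8

/-- the number of the `N` with `1 ≤ N ≤ X` and `Q N` -/
noncomputable def count (Q : ℕ → Prop) (X : ℕ) : ℕ := Nat.card {N : ℕ // 1 ≤ N ∧ N ≤ X ∧ Q N}

/-- the law for the family -/
def Law (S : Set ℕ) (k : ℕ) : Prop :=
  (∃ (c C : ℝ) (X₀ : ℕ), 0 < c ∧ 0 < C ∧ ∀ X : ℕ, X₀ ≤ X →
    c * (X * Real.log (Real.log X) ^ k / Real.log X) ≤ (count (Family S k) X : ℝ) ∧
    (count (Family S k) X : ℝ) ≤ C * (X * Real.log (Real.log X) ^ k / Real.log X)) ∧
  Tendsto (fun X : ℕ => (count (fun N => Family S k N ∧ ThreePart N) X : ℝ) /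
    (count (Family S k) X : ℝ)) atTop (𝓝 (∏ i ∈ range k, (1 - (1 / 3 : ℝ) ^ (i + 1))))

lemma twist_eq (N : ℕ) : Pool.Agent.Y703.CT.WD N = twist N := rfl

lemma three_iff (N : ℕ) : TrivialThree N ↔ Pool.Agent.Y703.CT.Triv3 N := Iff.rfl

lemma class_iff (N : ℕ) : InClass N ↔ Squarefree N ∧ Pool.Agent.Y703.CT.Cls N :=
  (Pool.Agent.Y696.CTP.cls_sq N).symm

lemma tors_eq (N : ℕ) : Pool.Agent.Y703.CT.tors N = torsion N := by
  unfold Pool.Agent.Y703.CT.tors torsion
  exact congrArg (fun d : DecidableEq ℚ => Nat.card (@AddCommGroup.torsion _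
    (@Affine.Point.instAddCommGroup ℚ _ (twistQ N).toAffine d))) (Subsingleton.elim _ _)

/-- the formula for one curve -/
lemma one {N : ℕ} (hN : InClass N) : IsGloballyMinimal (twist N) ∧ ∃ L : ℂ → ℂ, IsL N L ∧
    Integral3 (predicted N (L 1)) ∧ (Unit3 (predicted N (L 1)) ↔ TrivialThree N) ∧
    (TrivialThree N ↔ HasNoSplitting N) ∧ (TrivialThree N → L 1 ≠ 0) := by
  have hC := ((class_iff N).1 hN).2
  obtain ⟨h0, f, hf, u, hu, hi, h1, h2⟩ := Pool.Agent.Y703.CT.fin_all hC
  have hB := hC.1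
  obtain ⟨m, hm3, hm⟩ := Pool.Agent.Y145.CT.tamThm Pool.Agent.Y809.BSD14.t_E0 N hB
  have hper := Pool.Agent.Y333.CT.per N (Nat.pos_of_ne_zero hB.1)
  have hDpos : (0 : ℝ) < N := by exact_mod_cast Nat.pos_of_ne_zero hB.1
  have g1 : Pool.Agent.Y700.Omega (Pool.Agent.Y703.CT.WD N) ≠ 0 := by
    rw [hper]
    have := Pool.Agent.Y715.T.Om.Om_pos
    positivity
  have g2 : Pool.Agent.Y703.CT.tamProd (Pool.Agent.Y703.CT.WD N) ≠ 0 := by
    rw [hm]
    refine mul_ne_zero (pow_ne_zero _ three_ne_zero) ?_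
    rintro rfl
    exact hm3 (dvd_zero 3)
  have g3 : Pool.Agent.Y703.CT.tors N ≠ 0 := by
    obtain ⟨n, π, e, hdt, hDp⟩ := Pool.Agent.Y274.CT.t_exi N hB
    have hcnt := Pool.Agent.Y274.CT.t_cnt N hC (Fin n) π e hdt hDp
    rw [Fintype.card_fin] at hcnt
    have : Nonempty (Fin n) := ⟨⟨0, by
      have h1 : 0 < N.primeFactors.card := by
        rw [Finset.card_pos]
        obtain ⟨-, -, -, q, hq, -, hqD, -⟩ := hC
        exact ⟨q, Nat.mem_primeFactors.2 ⟨hq, hqD, hB.1⟩⟩
      omega⟩⟩
    exact (Pool.Agent.Y703.CT.tors_val Pool.Agent.Y614.CT.t_TORS hC hdt hDp).1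
  have g1' : ((Omega N : ℝ) : ℂ) ≠ 0 := by
    rw [Ne, Complex.ofReal_eq_zero]
    exact g1
  have g2' : (tam N : ℂ) ≠ 0 := by
    have : tam N ≠ 0 := g2
    exact_mod_cast this
  have g3' : (torsion N : ℂ) ≠ 0 := by
    rw [← tors_eq]
    exact_mod_cast g3
  have key : predicted N (f 1) = u := by
    have hu' : f 1 = u * (((Omega N : ℝ) : ℂ) * (tam N : ℂ) / (torsion N : ℂ) ^ 2) := by
      rw [← tors_eq]
      exact hu
    unfold predicted
    rw [hu']
    field_simp
  refine ⟨h0, f, hf, ?_, ?_, h2, fun hT => Pool.Agent.Y703.CX.val_ne hC hT.1 (h1.2 hT).1 hu⟩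
  · rw [key]
    exact hi
  · rw [key]
    exact h1

lemma good_iff {N : ℕ} (hN : InClass N) : ThreePart N ↔ HasNoSplitting N := by
  obtain ⟨h0, L, hL, -, h1, h2, h3⟩ := one hN
  exact ⟨fun h => h2.1 h.2.1, fun h => ⟨h0, h2.2 h, L, hL, h3 (h2.2 h), h1.2 (h2.2 h)⟩⟩

open Pool.Agent.V11291.FK.Cb (Fam k1) in
lemma fam_iff (S : Set ℕ) (k N : ℕ) : Family S k N ↔ Fam (fun p => p ∈ S) k N := by
  unfold Family Fam
  constructor
  · rintro ⟨h1, h2, h3⟩
    have h4 := (class_iff N).1 h1
    exact ⟨h4.1, h4.2, fun p hp => h2 p (Nat.prime_of_mem_primeFactors hp)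
      (Nat.dvd_of_mem_primeFactors hp), h3⟩
  · rintro ⟨h1, h2, h3, h4⟩
    exact ⟨(class_iff N).2 ⟨h1, h2⟩, fun p hp hd => h3 p
      (Nat.mem_primeFactors.2 ⟨hp, hd, h1.ne_zero⟩), h4⟩

open Pool.Agent.V11291.FK (Dn) in
lemma dense_iff (S : Set ℕ) (r : ℕ) :
    Dense S r ↔ Dn fun p => p ∈ S ∧ p.Prime ∧ p % 9 = r := by
  classical
  unfold Dense Dn
  refine exists_congr fun δ => exists_congr fun Y₀ => and_congr_right fun _ =>
    forall_congr' fun Y => imp_congr_right fun _ => ?_
  rw [Nat.subtype_card (p := fun p : ℕ => p ≤ Y ∧ p ∈ S ∧ p.Prime ∧ p % 9 = r)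
    ((range (Y + 1)).filter fun p => p ∈ S ∧ p.Prime ∧ p % 9 = r)
    (fun p => by rw [Finset.mem_filter, Finset.mem_range, Nat.lt_succ_iff])]
  have e : ∀ d d' : DecidablePred fun p : ℕ => p ∈ S ∧ p.Prime ∧ p % 9 = r,
      (@Finset.filter ℕ _ d (range (Y + 1))).card = (@Finset.filter ℕ _ d' (range (Y + 1))).card :=
    fun d d' => by rw [Subsingleton.elim d d']
  rw [e _ _]

lemma rich_iff (S : Set ℕ) (k : ℕ) : Rich S k ↔ Pool.Agent.V11291.FK.Cb.Rich (fun p => p ∈ S) k := by
  unfold Rich Pool.Agent.V11291.FK.Cb.Rich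
  simp only [dense_iff]

lemma count_eq (Q : ℕ → Prop) [DecidablePred Q] (X : ℕ) : count Q X = ((Icc 1 X).filter Q).card := by
  unfold count
  rw [← Fintype.card_coe, ← Nat.card_eq_fintype_card]
  refine Nat.card_congr (Equiv.subtypeEquivRight fun p => ?_)
  rw [Finset.mem_filter, Finset.mem_Icc, and_assoc]

/-- **Main theorem.**
(1) For every `N` of the class the equation of `E_N` is minimal, `L(E_N, s)` is entire, the predicted order
`L(E_N, 1) |E_N(ℚ)_tors|² / (Ω ∏ c_p)` of `Ш(E_N/ℚ)` is integral at `3`, it is a unit at `3` if and only if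
`E_N(ℚ)` is finite and `Ш(E_N/ℚ)[3^∞] = 0`, if and only if `N` has no splitting, if and only if the
3-part of the conjecture holds with trivial terms.
(2) Let `S` be a set of primes which satisfies the condition `Rich`.  Then the number of the `N` up to
`X` of the class with exactly `k` prime factors `1` modulo `3` and with all the prime factors in `S` is
between two positive constants times `X (log log X)^k / log X`, and the proportion of those for which
the 3-part of the conjecture holds with trivial terms tends to `∏_{i < k} (1 - 3^{-(i + 1)})`.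
(3) The condition holds if `S` is the set of the numbers in a residue class `c` modulo `q`, with `q`
prime to `3` and `c` prime to `q`. -/
theorem result :
    (∀ N : ℕ, InClass N → IsGloballyMinimal (twist N) ∧
      (∃ L : ℂ → ℂ, IsL N L ∧ Integral3 (predicted N (L 1)) ∧
        (Unit3 (predicted N (L 1)) ↔ TrivialThree N)) ∧
      (TrivialThree N ↔ HasNoSplitting N) ∧ (ThreePart N ↔ HasNoSplitting N)) ∧
    (∀ (S : Set ℕ) (k : ℕ), Rich S k → Law S k) ∧
    ∀ q c : ℕ, Nat.Coprime q 3 → Nat.Coprime c q → ∀ k : ℕ, Rich {p | p % q = c % q} k := by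
  classical
  refine ⟨fun N hN => ?_, fun S k hS => ?_, fun q c hq hc k =>
    (rich_iff _ k).2 (Pool.Agent.V11291.FK.Cb.rich_class hq hc k)⟩
  · obtain ⟨h0, L, hL, hi, h1, h2, -⟩ := one hN
    exact ⟨h0, ⟨L, hL, hi, h1⟩, h2, good_iff hN⟩
  · have hS' := (rich_iff S k).1 hS
    have e1 : ∀ X : ℕ, count (Family S k) X =
        ((Icc 1 X).filter fun N => Pool.Agent.V11291.FK.Cb.Fam (fun p => p ∈ S) k N).card := by
      intro X
      rw [count_eq]
      congr 1
      ext N
      rw [mem_filter, mem_filter, fam_iff]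
    have e2 : ∀ X : ℕ, count (fun N => Family S k N ∧ ThreePart N) X =
        ((Icc 1 X).filter fun N => Pool.Agent.V11291.FK.Cb.Fam (fun p => p ∈ S) k N ∧
          Pool.Agent.Y703.CT.NoSplit N).card := by
      intro X
      rw [count_eq]
      congr 1
      ext N
      rw [mem_filter, mem_filter]
      refine and_congr_right fun _ => ?_
      rw [fam_iff]
      refine and_congr_right fun h => ?_
      exact good_iff ((class_iff N).2 ⟨h.1, h.2.1⟩)
    refine ⟨?_, ?_⟩
    · obtain ⟨c, C, X₀, hc, hC, h⟩ := Pool.Agent.V11291.FK.Cb.N_size hS'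
      refine ⟨c, C, X₀, hc, hC, fun X hX => ?_⟩
      have h3 := h X hX
      rw [e1]
      refine ⟨h3.1.trans (le_of_eq ?_), (le_of_eq ?_).trans h3.2⟩
      · congr 2
      · congr 2
    · refine (Pool.Agent.V11291.FK.Cb.N_law hS').congr fun X => ?_
      rw [e1, e2]

end Pool.Agent.Results.MP_4a9ea6_nt.FixedNumberCubicTwists
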