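import Pool.Agent.V11333.RieszReal
import Pool.Agent.V11288.BS.Cur
import Pool.Agent.TH941.Newform
import Pool.Agent.W263.BSD.Lead8

/-!
# The leading coefficient and one-sided bounds for the products of Birch and Swinnerton-Dyer

Let `C : y² = x³ + a x + b` be an elliptic curve over `ℚ`, `a, b ∈ ℤ`, let `N_p` be the number of
affine points modulo the good primes `p ∤ 2Δ`, `P(x) = ∏_{p ≤ x, p ∤ 2Δ} (N_p + 1)/p` the product from
which Birch and Swinnerton-Dyer found their conjecture, `F` the entire continuation of the incomplete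
`L`-series, `m = ord_{s=1} F`, `ℓ = |F^(m)(1)| / m!` and `c = √2 e^(mγ) / ℓ`. Goldfeld (1982) proved: if
`P(x) / (log x)^r` has a positive limit, then `r = m` and the limit is `c`. Here only bounds from ONE
side are used, and the leading coefficient is bounded from one side.

Let `r` be a natural number and `B > 0` (for instance the rank and the right side of the formula of Birch
and Swinnerton-Dyer times the Euler factors at the primes dividing `2Δ`). Let
`R_κ(x) = ∑_{p ≤ x, p ∤ 2Δ} (1 - log p / log x)^κ log ((N_p + 1)/p)`, `κ ≥ 0` real, so that `R_0 = log P`, and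
`D(κ) = γ + Γ'(κ+1)/Γ(κ+1)` (`= 1 + 1/2 + ⋯ + 1/κ` for natural `κ`, `D(0) = 0`).

1. For every `κ > 0`: `limsup (R_κ(x) - r log log x) ≤ log (√2 e^(rγ) / B) - r D(κ)` IF AND ONLY IF `F` has no
   zeros with `Re s > 1` and (`m < r`, or `m = r` and the leading coefficient is at least `B`). For `κ = 0`,
   that is `limsup P(x) / (log x)^r ≤ √2 e^(rγ) / B`, the implication from left to right holds.
2. If `F` has no real zeros `> 1`, then for every `κ > 0`:
   `liminf (R_κ(x) - r log log x) ≥ log (√2 e^(rγ) / B) - r D(κ)` IF AND ONLY IF `F` has no zeros with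
   `Re s > 1` and (`m > r`, or `m = r` and the leading coefficient is at most `B`); for `κ = 0` the
   implication from left to right holds.

Proof. The zeros are excluded by the one-sided theorems of `Pool.Agent.V11333.RieszReal`, and the limits
of the Riesz means under the Riemann hypothesis are those of `Pool.Agent.TH942.RZ`. For `κ = 0` the brackets
`limsup P(x)/(log x)^m ≥ c` and (no real zeros `> 1`) `liminf P(x)/(log x)^m ≤ c` are used; they are theorems
of the starting files for the product with second order correction (`Pool.Agent.W263.BSD.Lead7`), and follow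
also from `MP_3283e1_nt.EveryWindow`; the correction factor tends to `1/√2` by Rankin and Selberg.
-/

set_option autoImplicit false

namespace Pool.Agent.Results.MP_4a9ea6_nt.OneSidedLeadingTerm

open Pool.Agent.W263.BSD Filter Topology Classical MeasureTheory Set
open CongruenceSubgroup UpperHalfPlane
open scoped MatrixGroups

/-- The original product `P(x) = ∏_{p ≤ x, p ∤ 2Δ} (N_p + 1)/p`. -/
noncomputable def P (a b : ℤ) (x : ℝ) : ℝ :=
  ∏ p ∈ (Finset.range (⌊x⌋₊ + 1)).filter (GoodPrime a b), (((pointCount a b p : ℝ) + 1) / p)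

/-- The Riesz mean `R_κ(x) = ∑_{p ≤ x, p ∤ 2Δ} (1 - log p / log x)^κ log ((N_p + 1) / p)` of real order
`κ ≥ 0`; `R_0(x) = log P(x)`. -/
noncomputable def riesz (a b : ℤ) (κ x : ℝ) : ℝ :=
  ∑ p ∈ (Finset.range (⌊x⌋₊ + 1)).filter (GoodPrime a b),
    (1 - Real.log p / Real.log x) ^ κ * Real.log (((pointCount a b p : ℝ) + 1) / p)

/-- `D(κ) = γ + Γ'(κ + 1) / Γ(κ + 1)`; `D(0) = 0`, and `D(κ) = 1 + 1/2 + ⋯ + 1/κ` for natural `κ`. -/
noncomputable def D (κ : ℝ) : ℝ :=
  Real.eulerMascheroniConstant + deriv Real.Gamma (κ + 1) / Real.Gamma (κ + 1)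

/-- `r log log x + log (√2 e^(rγ) / B) - r D(κ)`. -/
noncomputable def level (r : ℕ) (B κ x : ℝ) : ℝ :=
  r * Real.log (Real.log x) + Real.log (√2 * Real.exp (r * Real.eulerMascheroniConstant) / B) -
    r * D κ

/-- `limsup (R_κ(x) - r log log x) ≤ log (√2 e^(rγ) / B) - r D(κ)`. -/
def Below (a b : ℤ) (κ : ℝ) (r : ℕ) (B : ℝ) : Prop :=
  ∀ ε : ℝ, 0 < ε → ∀ᶠ x : ℝ in atTop, riesz a b κ x ≤ level r B κ x + ε

/-- `liminf (R_κ(x) - r log log x) ≥ log (√2 e^(rγ) / B) - r D(κ)`. -/
def Above (a b : ℤ) (κ : ℝ) (r : ℕ) (B : ℝ) : Prop :=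
  ∀ ε : ℝ, 0 < ε → ∀ᶠ x : ℝ in atTop, level r B κ x - ε ≤ riesz a b κ x

/-- The leading coefficient `F^(r)(1) / r!` is a real number and at least `B`. -/
def AtLeast (F : ℂ → ℂ) (r : ℕ) (B : ℝ) : Prop :=
  ∃ l : ℝ, iteratedDeriv r F 1 / (r.factorial : ℂ) = l ∧ B ≤ l

/-- The leading coefficient `F^(r)(1) / r!` is a positive real number and at most `B`. -/
def AtMost (F : ℂ → ℂ) (r : ℕ) (B : ℝ) : Prop :=
  ∃ l : ℝ, iteratedDeriv r F 1 / (r.factorial : ℂ) = l ∧ 0 < l ∧ l ≤ B

/-- `F` has no zeros with `Re s > 1`. -/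
def NoZeros (F : ℂ → ℂ) : Prop := ∀ s : ℂ, 1 < s.re → F s ≠ 0

/-- `F` has no real zeros `> 1`. -/
def NoRealZeros (F : ℂ → ℂ) : Prop := ∀ σ : ℝ, 1 < σ → F σ ≠ 0

/-- The `n`-th Fourier coefficient of `f`. -/
noncomputable def coef {N : ℕ} (f : CuspForm (Gamma0 N : Subgroup (GL (Fin 2) ℝ)) 2) (n : ℕ) : ℂ :=
  (qExpansion 1 f).coeff n

/-- `f ∈ S_2(Γ₀(N))` is the newform of the elliptic curve `E : y² = x³ + a x + b` of conductor `N`: the
Fourier coefficients `c(n)` of `f` are real with `c(1) = 1`, they satisfy the Hecke relations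
`c(mn) = c(m) c(n)` for coprime `m`, `n` and `c(p^(j+2)) = c(p) c(p^(j+1)) - p c(p^j)` (without the last
term if `p ∣ N`), `c(p) = a_p = p - N_p` (`N_p` affine points) for all primes `p ∤ 2Δ`, `|c(p)| ≤ 2 √p` for
all `p ∤ N` (Hasse) and `c(p) = 0, 1, -1` for `p ∣ N`. -/
structure IsNewformOf (a b : ℤ) (N : ℕ) (f : CuspForm (Gamma0 N : Subgroup (GL (Fin 2) ℝ)) 2) :
    Prop where
  one : coef f 1 = 1
  real : ∀ n, (coef f n).im = 0
  mul : ∀ m n : ℕ, Nat.Coprime m n → coef f (m * n) = coef f m * coef f n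
  pow : ∀ p j : ℕ, p.Prime → coef f (p ^ (j + 2)) = coef f p * coef f (p ^ (j + 1)) -
      (if p ∣ N then 0 else (p : ℂ) * coef f (p ^ j))
  points : ∀ p : ℕ, GoodPrime a b p → coef f p = (p : ℂ) - (pointCount a b p : ℂ)
  good : ∀ p : ℕ, p.Prime → ¬ p ∣ N → ‖coef f p‖ ≤ 2 * Real.sqrt p
  bad : ∀ p : ℕ, p.Prime → p ∣ N → coef f p = 0 ∨ coef f p = 1 ∨ coef f p = -1

theorem hecke {a b : ℤ} {N : ℕ} {f : CuspForm (Gamma0 N : Subgroup (GL (Fin 2) ℝ)) 2}
    (hf : IsNewformOf a b N f) : Pool.Agent.TH941.Hecke f where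
  one := hf.one
  real := hf.real
  mul := hf.mul
  pow := hf.pow
  good := hf.good
  bad := fun p hp h => by
    rcases hf.bad p hp h with h1 | h1 | h1
    · have h2 : ‖coef f p‖ ≤ 1 := by rw [h1]; simp
      exact h2
    · have h2 : ‖coef f p‖ ≤ 1 := by rw [h1]; simp
      exact h2
    · have h2 : ‖coef f p‖ ≤ 1 := by rw [h1]; simp
      exact h2

variable {a b : ℤ} {F : ℂ → ℂ}

theorem loglog : Tendsto (fun x : ℝ => Real.log (Real.log x)) atTop atTop :=
  Real.tendsto_log_atTop.comp Real.tendsto_log_atTop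

/-- comparison of the coefficients of `log log x` -/
theorem le_of_freq {ρ σ M : ℝ} (h : ∃ᶠ x : ℝ in atTop,
    ρ * Real.log (Real.log x) ≤ σ * Real.log (Real.log x) + M) : ρ ≤ σ := by
  by_contra hcon
  push Not at hcon
  refine h ?_
  filter_upwards [(loglog.const_mul_atTop (sub_pos.2 hcon)).eventually_gt_atTop M] with x hx
  rw [not_le]
  linarith

theorem D_zero : D 0 = 0 := by
  unfold D
  rw [zero_add, Real.Gamma_one, div_one, Real.eulerMascheroniConstant_eq_neg_deriv]
  ring

theorem riesz_zero (x : ℝ) : riesz a b 0 x = Real.log (P a b x) := by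
  unfold riesz P
  rw [Real.log_prod]
  · exact Finset.sum_congr rfl fun p _ => by rw [Real.rpow_zero, one_mul]
  · intro p hp
    have hp0 : (p : ℝ) ≠ 0 := by exact_mod_cast (Finset.mem_filter.1 hp).2.1.ne_zero
    have : (0 : ℝ) < (pointCount a b p : ℝ) + 1 := by positivity
    exact div_ne_zero this.ne' hp0

theorem P_pos (x : ℝ) : 0 < P a b x := bsdProduct_pos x

theorem sqrt_two : Real.exp (-(Real.log 2 / 2)) = 1 / √2 := by
  rw [Real.exp_neg, one_div]
  congr 1
  rw [Real.sqrt_eq_rpow, Real.rpow_def_of_pos two_pos]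
  congr 1
  ring

/-- **The upper bracket** for the original product. -/
theorem up (hΔ : 4 * a ^ 3 + 27 * b ^ 2 ≠ 0) (hrs : Tendsto (rsSum a b) atTop (𝓝 0))
    (hF : IsLSeries a b F) {m : ℕ} (hm : analyticOrderAt F 1 = m) {ε : ℝ} (hε : 0 < ε) :
    ∃ᶠ x : ℝ in atTop, (√2 * Real.exp (m * Real.eulerMascheroniConstant) / leadAbs F m - ε) *
      Real.log x ^ m < P a b x := by
  intro hcon
  set T := Real.exp (m * Real.eulerMascheroniConstant) / leadAbs F m with hT
  have hT2 : √2 * Real.exp (m * Real.eulerMascheroniConstant) / leadAbs F m = √2 * T := by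
    rw [hT, mul_div_assoc]
  rw [hT2] at hcon
  have hs : 0 < √2 := by positivity
  have hs2 : √2 < 2 := by
    rw [Real.sqrt_lt' two_pos]
    norm_num
  have hc := (corr_tendsto hΔ hrs).rexp.const_mul (√2 * T - ε)
  rw [sqrt_two] at hc
  have hlt : (√2 * T - ε) * (1 / √2) < T - ε / 2 := by
    have e : (√2 * T - ε) * (1 / √2) = T - ε / √2 := by field_simp
    rw [e]
    have : ε / 2 < ε / √2 := div_lt_div_of_pos_left hε hs hs2
    linarith
  refine bracket_up hF hm (half_pos hε) ?_
  filter_upwards [hcon, hc.eventually (gt_mem_nhds hlt), eventually_gt_atTop 1] with x h1 h2 h3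
  rw [not_lt] at h1 ⊢
  have h4 : 0 ≤ Real.log x ^ m := pow_nonneg (Real.log_pos h3).le m
  have h5 := mul_le_mul_of_nonneg_right h1 (Real.exp_pos (∑ p ∈ (Finset.range (⌊x⌋₊ + 1)).filter
    (fun p => GoodPrime a b p ∧ √x < p),
      (((p : ℝ) - pointCount a b p) ^ 2 - 2 * p) / (2 * (p : ℝ) ^ 2))).le
  have h6 := mul_le_mul_of_nonneg_right h2.le h4
  calc bsdStar a b x ≤ _ := h5
    _ ≤ _ := by
      refine le_trans (le_of_eq ?_) h6
      ring

/-- **The lower bracket** for the original product. -/
theorem down (hΔ : 4 * a ^ 3 + 27 * b ^ 2 ≠ 0) (hrs : Tendsto (rsSum a b) atTop (𝓝 0))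
    (hF : IsLSeries a b F) {m : ℕ} (hm : analyticOrderAt F 1 = m) (hne : NoRealZeros F)
    {ε : ℝ} (hε : 0 < ε) :
    ∃ᶠ x : ℝ in atTop, P a b x <
      (√2 * Real.exp (m * Real.eulerMascheroniConstant) / leadAbs F m + ε) * Real.log x ^ m := by
  intro hcon
  set T := Real.exp (m * Real.eulerMascheroniConstant) / leadAbs F m with hT
  have hT2 : √2 * Real.exp (m * Real.eulerMascheroniConstant) / leadAbs F m = √2 * T := by
    rw [hT, mul_div_assoc]
  rw [hT2] at hcon
  have hs : 0 < √2 := by positivity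
  have hs2 : √2 < 2 := by
    rw [Real.sqrt_lt' two_pos]
    norm_num
  have hc := (corr_tendsto hΔ hrs).rexp.const_mul (√2 * T + ε)
  rw [sqrt_two] at hc
  have hlt : T + ε / 2 < (√2 * T + ε) * (1 / √2) := by
    have e : (√2 * T + ε) * (1 / √2) = T + ε / √2 := by field_simp
    rw [e]
    have : ε / 2 < ε / √2 := div_lt_div_of_pos_left hε hs hs2
    linarith
  refine bracket_down hF hm hne (half_pos hε) ?_
  filter_upwards [hcon, hc.eventually (lt_mem_nhds hlt), eventually_gt_atTop 1] with x h1 h2 h3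
  rw [not_lt] at h1 ⊢
  have h4 : 0 ≤ Real.log x ^ m := pow_nonneg (Real.log_pos h3).le m
  have h5 := mul_le_mul_of_nonneg_right h1 (Real.exp_pos (∑ p ∈ (Finset.range (⌊x⌋₊ + 1)).filter
    (fun p => GoodPrime a b p ∧ √x < p),
      (((p : ℝ) - pointCount a b p) ^ 2 - 2 * p) / (2 * (p : ℝ) ^ 2))).le
  have h6 := mul_le_mul_of_nonneg_right h2.le h4
  refine le_trans ?_ h5
  refine h6.trans (le_of_eq ?_)
  ring

/-- The limits of the Riesz means under the Riemann hypothesis. -/
theorem limits (hΔ : 4 * a ^ 3 + 27 * b ^ 2 ≠ 0) {N : ℕ} [NeZero N]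
    {f : CuspForm (Gamma0 N : Subgroup (GL (Fin 2) ℝ)) 2} (hf : IsNewformOf a b N f)
    (hrs : Tendsto (rsSum a b) atTop (𝓝 0))
    (hF : IsLSeries a b F) {m : ℕ} (hm : analyticOrderAt F 1 = m) (hz : NoZeros F) :
    ∃ c : ℝ, iteratedDeriv m F 1 / (m.factorial : ℂ) =
        ((√2 * Real.exp (m * Real.eulerMascheroniConstant) / Real.exp c : ℝ) : ℂ) ∧
      ∀ κ : ℝ, 0 < κ → Tendsto (fun x : ℝ => riesz a b κ x - m * Real.log (Real.log x)) atTop
        (𝓝 (c - m * D κ)) := by
  obtain ⟨c, hc⟩ := Pool.Agent.V11288.BS.lead_pos hΔ hrs hF hm hz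
  refine ⟨c, hc, fun k hk => ?_⟩
  obtain ⟨κ, h4, h5⟩ := Pool.Agent.TH942.RZ.curve_riesz hΔ hrs
    (Pool.Agent.TH942.RZ.growth_newform hΔ hF (hecke hf) fun p hp => hf.points p hp) hF hm hz hk
  have h6 : κ = c - m * D k := by
    rw [hc] at h5
    have h7 : Real.exp κ * (√2 * Real.exp (m * Real.eulerMascheroniConstant) / Real.exp c) =
        √2 * Real.exp (-(m * (deriv Real.Gamma (k + 1) / Real.Gamma (k + 1)))) := by
      exact_mod_cast h5
    have h8 : (0 : ℝ) < √2 := by positivity
    have h9 : Real.exp κ * Real.exp (m * Real.eulerMascheroniConstant) =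
        Real.exp (-(m * (deriv Real.Gamma (k + 1) / Real.Gamma (k + 1)))) * Real.exp c := by
      have e1 := (Real.exp_pos c).ne'
      refine mul_left_cancel₀ h8.ne' ?_
      calc √2 * (Real.exp κ * Real.exp (m * Real.eulerMascheroniConstant)) =
          Real.exp κ * (√2 * Real.exp (m * Real.eulerMascheroniConstant) / Real.exp c) *
            Real.exp c := by field_simp
        _ = _ := by rw [h7]; ring
    rw [← Real.exp_add, ← Real.exp_add, Real.exp_eq_exp] at h9
    unfold D
    linarith
  rw [← h6]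
  refine (h4.comp Real.tendsto_log_atTop).congr' ?_
  filter_upwards [eventually_gt_atTop 1] with X hX
  simp only [Function.comp_apply]
  rw [← Pool.Agent.TH942.RZ.rz_eq hk hX]
  rfl

/-- the logarithm of the constant, compared -/
theorem level_le {r : ℕ} {B c : ℝ} (hB : 0 < B)
    (h : B ≤ √2 * Real.exp (r * Real.eulerMascheroniConstant) / Real.exp c) :
    c ≤ Real.log (√2 * Real.exp (r * Real.eulerMascheroniConstant) / B) := by
  have h0 : 0 < √2 * Real.exp (r * Real.eulerMascheroniConstant) := by positivity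
  rw [Real.le_log_iff_exp_le (by positivity), le_div_iff₀ hB]
  rw [le_div_iff₀ (Real.exp_pos c)] at h
  linarith

theorem le_level {r : ℕ} {B c : ℝ} (hB : 0 < B)
    (h : √2 * Real.exp (r * Real.eulerMascheroniConstant) / Real.exp c ≤ B) :
    Real.log (√2 * Real.exp (r * Real.eulerMascheroniConstant) / B) ≤ c := by
  have h0 : 0 < √2 * Real.exp (r * Real.eulerMascheroniConstant) := by positivity
  rw [Real.log_le_iff_le_exp (by positivity), div_le_iff₀ hB]
  rw [div_le_iff₀ (Real.exp_pos c)] at h
  linarith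

theorem of_level_le {r : ℕ} {B c : ℝ} (hB : 0 < B)
    (h : c ≤ Real.log (√2 * Real.exp (r * Real.eulerMascheroniConstant) / B)) :
    B ≤ √2 * Real.exp (r * Real.eulerMascheroniConstant) / Real.exp c := by
  have h0 : 0 < √2 * Real.exp (r * Real.eulerMascheroniConstant) := by positivity
  rw [Real.le_log_iff_exp_le (by positivity), le_div_iff₀ hB] at h
  rw [le_div_iff₀ (Real.exp_pos c)]
  linarith

theorem of_le_level {r : ℕ} {B c : ℝ} (hB : 0 < B)
    (h : Real.log (√2 * Real.exp (r * Real.eulerMascheroniConstant) / B) ≤ c) :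
    √2 * Real.exp (r * Real.eulerMascheroniConstant) / Real.exp c ≤ B := by
  have h0 : 0 < √2 * Real.exp (r * Real.eulerMascheroniConstant) := by positivity
  rw [Real.log_le_iff_le_exp (by positivity), div_le_iff₀ hB] at h
  rw [div_le_iff₀ (Real.exp_pos c)]
  linarith

/-- **Theorem.** Let `f` be the newform of the elliptic curve `C : y² = x³ + a x + b` over `ℚ`, `F` the
entire continuation of the incomplete `L`-series of `C` and `m` its order at `s = 1`.
Let `r` be a natural number and `B > 0`.
(1) If `limsup (R_κ(x) - r log log x)` is at most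
`log (√2 e^(rγ) / B) - r D(κ)` for one `κ ≥ 0`, then `F` has no zeros with `Re s > 1` and (`m < r`, or
`m = r` and the leading coefficient is real and at least `B`); the converse holds for all `κ > 0`.
(2) If `F` has no real zeros `> 1` and `liminf (R_κ(x) - r log log x)` is at least this number for one
`κ ≥ 0`, then `F` has no zeros with `Re s > 1` and (`r < m`, or `m = r` and the leading coefficient is
positive and at most `B`); the converse holds for all `κ > 0`. -/
theorem result (a b : ℤ) (hΔ : 4 * a ^ 3 + 27 * b ^ 2 ≠ 0) (F : ℂ → ℂ) (hF : IsLSeries a b F)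
    (N : ℕ) [NeZero N] (f : CuspForm (Gamma0 N : Subgroup (GL (Fin 2) ℝ)) 2)
    (hf : IsNewformOf a b N f) :
    ∃ m : ℕ, analyticOrderAt F 1 = m ∧ ∀ (r : ℕ) (B : ℝ), 0 < B →
      (∀ κ : ℝ, 0 ≤ κ → Below a b κ r B → NoZeros F ∧ (m < r ∨ (m = r ∧ AtLeast F r B))) ∧
      (NoZeros F ∧ (m < r ∨ (m = r ∧ AtLeast F r B)) → ∀ κ : ℝ, 0 < κ → Below a b κ r B) ∧
      (NoRealZeros F → ∀ κ : ℝ, 0 ≤ κ → Above a b κ r B →
        NoZeros F ∧ (r < m ∨ (m = r ∧ AtMost F r B))) ∧
      (NoZeros F ∧ (r < m ∨ (m = r ∧ AtMost F r B)) → ∀ κ : ℝ, 0 < κ → Above a b κ r B) := by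
  obtain ⟨m, hm⟩ := order_finite hF
  have hrs : Tendsto (rsSum a b) atTop (𝓝 0) :=
    (hecke hf).rsSum_tendsto hΔ fun p hp => hf.points p hp
  obtain ⟨hpos, -⟩ := lead_limit hF.1 hm
  refine ⟨m, hm, fun r B hB => ?_⟩
  have hlev : ∀ κ : ℝ, ∃ M : ℝ, ∀ x : ℝ, level r B κ x = r * Real.log (Real.log x) + M := by
    intro κ
    refine ⟨Real.log (√2 * Real.exp (r * Real.eulerMascheroniConstant) / B) - r * D κ,
      fun x => ?_⟩
    unfold level
    ring
  have hlead : ∀ c : ℝ, iteratedDeriv m F 1 / (m.factorial : ℂ) =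
      ((√2 * Real.exp (m * Real.eulerMascheroniConstant) / Real.exp c : ℝ) : ℂ) →
      leadAbs F m = √2 * Real.exp (m * Real.eulerMascheroniConstant) / Real.exp c := by
    intro c hc
    have h1 : 0 < √2 * Real.exp (m * Real.eulerMascheroniConstant) / Real.exp c := by positivity
    have h3 : ‖iteratedDeriv m F 1 / (m.factorial : ℂ)‖ = leadAbs F m := by
      unfold leadAbs
      rw [norm_div, Complex.norm_natCast]
    rw [← h3, hc, Complex.norm_real, Real.norm_of_nonneg h1.le]
  -- from `Below`
  have hA : ∀ κ : ℝ, 0 ≤ κ → Below a b κ r B → NoZeros F ∧ (m < r ∨ (m = r ∧ AtLeast F r B)) := by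
    intro κ hκ hb
    have hz : NoZeros F := by
      intro s hs
      refine Pool.Agent.V11333.RieszOne.no_zeros_upperR hF hκ le_rfl (fun ε hε => ?_)
        (by linarith)
      obtain ⟨M, hM⟩ := hlev κ
      filter_upwards [hb 1 one_pos,
        Pool.Agent.V11333.RieszOne.loglog_bound (r : ℝ) (M + 1) hε] with x h1 h2
      rw [zero_add]
      rw [hM x] at h1
      refine le_trans h1 (le_trans (le_of_eq ?_) h2)
      ring
    refine ⟨hz, ?_⟩
    obtain ⟨c, hc, hlim⟩ := limits hΔ hf hrs hF hm hz
    -- the exponents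
    have hmr : m ≤ r := by
      rcases hκ.eq_or_lt with h0 | h0
      · subst h0
        obtain ⟨M, hM⟩ := hlev 0
        obtain ⟨M', hM'⟩ := upper hF hm 0
        have h1 : (m : ℝ) ≤ r := by
          refine le_of_freq (M := M + 1 + M') ((hM'.and_eventually (hb 1 one_pos)).mono
            fun x hx => ?_)
          obtain ⟨h2, h3⟩ := hx
          have e : riesz a b 0 x = rieszMean a b 0 x := by
            have := Pool.Agent.V11333.RieszOne.rieszR_nat (a := a) (b := b) 0 x
            rw [Nat.cast_zero] at this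
            exact this
          rw [hM x, e] at h3
          linarith
        exact_mod_cast h1
      · have h1 : (m : ℝ) ≤ r := by
          obtain ⟨M, hM⟩ := hlev κ
          have h2 := (hlim κ h0).eventually (lt_mem_nhds (show c - m * D κ - 1 < c - m * D κ by
            linarith))
          refine le_of_freq (M := M + 1 - (c - m * D κ) + 1)
            ((h2.and (hb 1 one_pos)).mono fun x hx => ?_).frequently
          obtain ⟨h3, h4⟩ := hx
          rw [hM x] at h4
          linarith
        exact_mod_cast h1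
    rcases hmr.eq_or_lt with hmr | hmr
    swap
    · exact Or.inl hmr
    refine Or.inr ⟨hmr, ?_⟩
    subst hmr
    refine ⟨_, hc, ?_⟩
    rcases hκ.eq_or_lt with h0 | h0
    · -- the original product
      subst h0
      rw [← hlead c hc]
      by_contra hcon
      rw [not_le] at hcon
      set E := √2 * Real.exp (m * Real.eulerMascheroniConstant) with hE
      have hE0 : 0 < E := by positivity
      have h1 : E / B < E / leadAbs F m := div_lt_div_of_pos_left hE0 hpos hcon
      obtain ⟨ε, hε, h2⟩ : ∃ ε : ℝ, 0 < ε ∧ E / B * Real.exp ε < E / leadAbs F m - ε := by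
        have h3 : Tendsto (fun ε : ℝ => E / B * Real.exp ε + ε) (𝓝[>] 0) (𝓝 (E / B)) := by
          have h4 : Continuous fun ε : ℝ => E / B * Real.exp ε + ε := by fun_prop
          have := h4.tendsto 0
          simp only [Real.exp_zero, mul_one, add_zero] at this
          exact tendsto_nhdsWithin_of_tendsto_nhds this
        obtain ⟨ε, h5, h6⟩ := ((h3.eventually (gt_mem_nhds h1)).and self_mem_nhdsWithin).exists
        exact ⟨ε, h6, by linarith⟩
      refine up hΔ hrs hF hm hε ?_
      filter_upwards [hb ε hε, eventually_gt_atTop (Real.exp 1)] with x h3 h4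
      have hx1 : 0 < x := (Real.exp_pos 1).trans h4
      have hl : 1 < Real.log x := by rwa [Real.lt_log_iff_exp_lt hx1]
      have hl0 : 0 < Real.log x := by linarith
      rw [not_lt]
      rw [riesz_zero] at h3
      have h5 := Real.exp_le_exp.2 h3
      rw [Real.exp_log (P_pos x)] at h5
      have h6 : Real.exp (level m B 0 x + ε) = E / B * Real.exp ε * Real.log x ^ m := by
        unfold level
        rw [D_zero, mul_zero, sub_zero, Real.exp_add, Real.exp_add,
          Real.exp_log (by positivity : 0 < √2 *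
            Real.exp (m * Real.eulerMascheroniConstant) / B), ← Real.log_pow,
          Real.exp_log (pow_pos hl0 m)]
        ring
      rw [h6] at h5
      exact h5.trans (mul_le_mul_of_nonneg_right h2.le (pow_nonneg hl0.le m))
    · refine of_level_le hB ?_
      refine le_of_forall_pos_le_add fun ε hε => ?_
      have h2 : c - m * D κ ≤ Real.log (√2 * Real.exp (m * Real.eulerMascheroniConstant) / B) -
          m * D κ + ε := by
        refine le_of_tendsto (hlim κ h0) ?_
        filter_upwards [hb ε hε] with x hx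
        unfold level at hx
        linarith
      linarith
  have hA' : NoZeros F ∧ (m < r ∨ (m = r ∧ AtLeast F r B)) → ∀ κ : ℝ, 0 < κ →
      Below a b κ r B := by
    rintro ⟨hz, hcase⟩ κ hκ ε hε
    obtain ⟨c, hc, hlim⟩ := limits hΔ hf hrs hF hm hz
    rcases hcase with hmr | ⟨hmr, l, hl, hBl⟩
    · obtain ⟨M, hM⟩ := hlev κ
      have h1 : (0 : ℝ) < (r : ℝ) - m := by
        have : (m : ℝ) < r := by exact_mod_cast hmr
        linarith
      filter_upwards [(hlim κ hκ).eventually (gt_mem_nhds (show c - m * D κ < c - m * D κ + 1 by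
        linarith)), (loglog.const_mul_atTop h1).eventually_gt_atTop (c - m * D κ + 1 - M)] with
        x h2 h3
      rw [hM x]
      linarith
    · subst hmr
      have h1 : B ≤ √2 * Real.exp (m * Real.eulerMascheroniConstant) / Real.exp c := by
        have : l = √2 * Real.exp (m * Real.eulerMascheroniConstant) / Real.exp c := by
          rw [hc] at hl
          exact_mod_cast hl.symm
        rw [← this]
        exact hBl
      have h2 := level_le hB h1
      filter_upwards [(hlim κ hκ).eventually (gt_mem_nhds (show c - m * D κ < c - m * D κ + ε by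
        linarith))] with x h3
      unfold level
      linarith
  -- from `Above`
  have hC : NoRealZeros F → ∀ κ : ℝ, 0 ≤ κ → Above a b κ r B →
      NoZeros F ∧ (r < m ∨ (m = r ∧ AtMost F r B)) := by
    intro hne κ hκ hb
    have hz : NoZeros F := by
      intro s hs
      refine Pool.Agent.V11333.RieszOne.no_zeros_lowerR hF hne hκ le_rfl (fun ε hε => ?_)
        (by linarith)
      obtain ⟨M, hM⟩ := hlev κ
      filter_upwards [hb 1 one_pos, loglog.eventually_ge_atTop 0,
        Pool.Agent.V11333.RieszOne.loglog_bound (0 : ℝ) (|M - 1|) hε] with x h1 h2 h3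
      rw [zero_add]
      rw [hM x] at h1
      have h4 : 0 ≤ (r : ℝ) * Real.log (Real.log x) := mul_nonneg (Nat.cast_nonneg r) h2
      have h5 := neg_abs_le (M - 1)
      change -x ^ ε ≤ riesz a b κ x
      linarith
    refine ⟨hz, ?_⟩
    obtain ⟨c, hc, hlim⟩ := limits hΔ hf hrs hF hm hz
    have hmr : r ≤ m := by
      rcases hκ.eq_or_lt with h0 | h0
      · subst h0
        obtain ⟨M, hM⟩ := hlev 0
        obtain ⟨M', hM'⟩ := lower hF hm hne 0
        have h1 : (r : ℝ) ≤ m := by
          refine le_of_freq (M := 1 + M' - M) ((hM'.and_eventually (hb 1 one_pos)).mono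
            fun x hx => ?_)
          obtain ⟨h2, h3⟩ := hx
          have e : riesz a b 0 x = rieszMean a b 0 x := by
            have := Pool.Agent.V11333.RieszOne.rieszR_nat (a := a) (b := b) 0 x
            rw [Nat.cast_zero] at this
            exact this
          rw [hM x, e] at h3
          linarith
        exact_mod_cast h1
      · have h1 : (r : ℝ) ≤ m := by
          obtain ⟨M, hM⟩ := hlev κ
          have h2 := (hlim κ h0).eventually (gt_mem_nhds (show c - m * D κ < c - m * D κ + 1 by
            linarith))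
          refine le_of_freq (M := 1 - M + (c - m * D κ) + 1)
            ((h2.and (hb 1 one_pos)).mono fun x hx => ?_).frequently
          obtain ⟨h3, h4⟩ := hx
          rw [hM x] at h4
          linarith
        exact_mod_cast h1
    rcases hmr.eq_or_lt with hmr | hmr
    swap
    · exact Or.inl hmr
    refine Or.inr ⟨hmr.symm, ?_⟩
    subst hmr
    refine ⟨_, hc, by positivity, ?_⟩
    rcases hκ.eq_or_lt with h0 | h0
    · subst h0
      rw [← hlead c hc]
      by_contra hcon
      rw [not_le] at hcon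
      set E := √2 * Real.exp (r * Real.eulerMascheroniConstant) with hE
      have hE0 : 0 < E := by positivity
      have h1 : E / leadAbs F r < E / B := div_lt_div_of_pos_left hE0 hB hcon
      obtain ⟨ε, hε, h2⟩ : ∃ ε : ℝ, 0 < ε ∧ E / leadAbs F r + ε < E / B * Real.exp (-ε) := by
        have h3 : Tendsto (fun ε : ℝ => E / B * Real.exp (-ε) - ε) (𝓝[>] 0) (𝓝 (E / B)) := by
          have h4 : Continuous fun ε : ℝ => E / B * Real.exp (-ε) - ε := by fun_prop
          have := h4.tendsto 0
          simp only [neg_zero, Real.exp_zero, mul_one, sub_zero] at this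
          exact tendsto_nhdsWithin_of_tendsto_nhds this
        obtain ⟨ε, h5, h6⟩ := ((h3.eventually (lt_mem_nhds h1)).and self_mem_nhdsWithin).exists
        exact ⟨ε, h6, by linarith⟩
      refine down hΔ hrs hF hm hne hε ?_
      filter_upwards [hb ε hε, eventually_gt_atTop (Real.exp 1)] with x h3 h4
      have hx1 : 0 < x := (Real.exp_pos 1).trans h4
      have hl : 1 < Real.log x := by rwa [Real.lt_log_iff_exp_lt hx1]
      have hl0 : 0 < Real.log x := by linarith
      rw [not_lt]
      rw [riesz_zero] at h3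
      have h5 := Real.exp_le_exp.2 h3
      rw [Real.exp_log (P_pos x)] at h5
      have h6 : Real.exp (level r B 0 x - ε) = E / B * Real.exp (-ε) * Real.log x ^ r := by
        unfold level
        rw [D_zero, mul_zero, sub_zero, sub_eq_add_neg, Real.exp_add, Real.exp_add,
          Real.exp_log (by positivity : 0 < √2 *
            Real.exp (r * Real.eulerMascheroniConstant) / B), ← Real.log_pow,
          Real.exp_log (pow_pos hl0 r)]
        ring
      rw [h6] at h5
      exact (mul_le_mul_of_nonneg_right h2.le (pow_nonneg hl0.le r)).trans h5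
    · refine of_le_level hB ?_
      refine le_of_forall_pos_le_add fun ε hε => ?_
      have h2 : Real.log (√2 * Real.exp (r * Real.eulerMascheroniConstant) / B) - r * D κ - ε ≤
          c - r * D κ := by
        refine ge_of_tendsto (hlim κ h0) ?_
        filter_upwards [hb ε hε] with x hx
        unfold level at hx
        linarith
      linarith
  refine ⟨hA, hA', hC, ?_⟩
  rintro ⟨hz, hcase⟩ κ hκ ε hε
  obtain ⟨c, hc, hlim⟩ := limits hΔ hf hrs hF hm hz
  rcases hcase with hmr | ⟨hmr, l, hl, hl0, hBl⟩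
  · obtain ⟨M, hM⟩ := hlev κ
    have h1 : (0 : ℝ) < (m : ℝ) - r := by
      have : (r : ℝ) < m := by exact_mod_cast hmr
      linarith
    filter_upwards [(hlim κ hκ).eventually (lt_mem_nhds (show c - m * D κ - 1 < c - m * D κ by
      linarith)), (loglog.const_mul_atTop h1).eventually_gt_atTop (M - (c - m * D κ) + 1)] with
      x h2 h3
    rw [hM x]
    linarith
  · subst hmr
    have h1 : √2 * Real.exp (m * Real.eulerMascheroniConstant) / Real.exp c ≤ B := by
      have : l = √2 * Real.exp (m * Real.eulerMascheroniConstant) / Real.exp c := by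
        rw [hc] at hl
        exact_mod_cast hl.symm
      rw [← this]
      exact hBl
    have h2 := le_level hB h1
    filter_upwards [(hlim κ hκ).eventually (lt_mem_nhds (show c - m * D κ - ε < c - m * D κ by
      linarith))] with x h3
    unfold level
    linarith

end Pool.Agent.Results.MP_4a9ea6_nt.OneSidedLeadingTerm
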