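import Pool.Agent.Results.MP_4a9ea6_nt.TwistsConductor49Proportion
import Pool.Agent.V1110.SpB

/-!
# The 2-part of the conjecture of Birch and Swinnerton-Dyer for the twists of `X_0(49)` along sparse
# sequences

`E_D` is the twist of `X_0(49)` by `D`, `D` squarefree with all prime factors congruent to `1` modulo
`4`. The hand-in `TwistsConductor49Proportion` of this problem shows that for any finite set `T` of such
numbers the 2-part of the conjecture holds for all the `E_{L D}`, `L ∈ T`, with rank zero, for a
proportion of exactly `c ^ #T` of the `D`, `c = ∏_{i ≥ 0} (1 - 2^{-(2 i + 1)})`.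

Here `D` runs through the terms `⌊α n ^ p⌋` of a sparse sequence which are in the class, where `p > 1` is
any real number. There is a set `A₀` of real numbers of Hausdorff dimension smaller than one, such that
for all real `α > 0` not in `A₀` the proportion is the same, for all `T`; moreover the events for the
different `L` are independent along the sequence.
-/

set_option autoImplicit false

open Filter Topology

namespace Pool.Agent.Results.MP_4a9ea6_nt.SparseSequences

open Pool.Agent.Results.MP_4a9ea6_nt.TwistsConductor49Proportion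

/-- the number of the `1 ≤ n ≤ N` such that `⌊α n ^ p⌋` has the property `Q` -/
noncomputable def along (α p : ℝ) (Q : ℕ → Prop) (N : ℕ) : ℕ :=
  Nat.card {n : ℕ // (1 ≤ n ∧ n ≤ N) ∧ Q ⌊α * (n : ℝ) ^ p⌋₊}

/-- `D` is in the class and `TwoPart` holds for all the twists by `L D`, `L ∈ T` -/
def All (T : Finset ℕ) (D : ℕ) : Prop := Adm D ∧ ∀ L ∈ T, TwoPart (tw L D)

/-- `D` is in the class, and for `L ∈ T` the statement `TwoPart` holds for the twist by `L D` exactly if
`L ∈ U` -/
def Exactly (T U : Finset ℕ) (D : ℕ) : Prop := Adm D ∧ ∀ L ∈ T, (TwoPart (tw L D) ↔ L ∈ U)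

lemma count_card (Q : ℕ → Prop) (X : ℕ) :
    count Q X = Nat.card {D : ℕ // (1 ≤ D ∧ D ≤ X) ∧ Adm D ∧ Q D} := by
  classical
  unfold count
  refine (Nat.subtype_card _ fun D => ?_).symm
  rw [Finset.mem_filter, Finset.mem_Icc]

lemma along_card (α p : ℝ) (Q : ℕ → Prop) [DecidablePred Q] (N : ℕ) :
    along α p Q N = ((Finset.Icc 1 N).filter fun n : ℕ => Q ⌊α * (n : ℝ) ^ p⌋₊).card := by
  unfold along
  refine Nat.subtype_card _ fun n => ?_
  rw [Finset.mem_filter, Finset.mem_Icc]

/-- the numbers with `Exactly (insert L T) U`, `L ∉ T`, `L ∉ U` -/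
lemma split_count (α p : ℝ) (T U : Finset ℕ) (L : ℕ) (hL : L ∉ T) (hU : L ∉ U) (N : ℕ) :
    along α p (Exactly T U) N = along α p (Exactly (insert L T) (insert L U)) N +
      along α p (Exactly (insert L T) U) N := by
  classical
  rw [along_card, along_card, along_card, ← Finset.card_union_of_disjoint]
  · congr 1
    ext n
    simp only [Finset.mem_union, Finset.mem_filter]
    constructor
    · rintro ⟨h1, h2, h3⟩
      by_cases h4 : TwoPart (tw L ⌊α * (n : ℝ) ^ p⌋₊)
      · left
        refine ⟨h1, h2, fun M hM => ?_⟩
        rcases Finset.mem_insert.1 hM with rfl | hM'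
        · simp [h4]
        · rw [h3 M hM', Finset.mem_insert]
          constructor
          · exact fun h => Or.inr h
          · rintro (rfl | h)
            · exact absurd hM' hL
            · exact h
      · right
        refine ⟨h1, h2, fun M hM => ?_⟩
        rcases Finset.mem_insert.1 hM with rfl | hM
        · exact ⟨fun h => absurd h h4, fun h => absurd h hU⟩
        · exact h3 M hM
    · rintro (⟨h1, h2, h3⟩ | ⟨h1, h2, h3⟩)
      · refine ⟨h1, h2, fun M hM => ?_⟩
        rw [h3 M (Finset.mem_insert_of_mem hM), Finset.mem_insert]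
        constructor
        · rintro (rfl | h)
          · exact absurd hM hL
          · exact h
        · exact fun h => Or.inr h
      · exact ⟨h1, h2, fun M hM => h3 M (Finset.mem_insert_of_mem hM)⟩
  · rw [Finset.disjoint_left]
    intro n h1 h2
    rw [Finset.mem_filter] at h1 h2
    have h3 := (h1.2.2 L (Finset.mem_insert_self _ _)).2 (Finset.mem_insert_self _ _)
    exact hU ((h2.2.2 L (Finset.mem_insert_self _ _)).1 h3)

/-- **Main theorem.** Let `p > 1` be a real number. There is a set `A₀` of real numbers of Hausdorff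
dimension smaller than one such that for all real `α > 0` not in `A₀`:
(1) at least `b N (log N)^(-1/2)` of the `n ≤ N` are such that `⌊α n ^ p⌋` is in the class;
(2) for all finite sets `T` of numbers of the class and all `U ⊆ T`, among the `n` with `D = ⌊α n ^ p⌋` in
the class the proportion of those, such that `TwoPart` holds for the twist `E_{L D}`, `L ∈ T`, exactly
if `L ∈ U`, tends to `c^#U (1 - c)^(#T - #U)`. -/
theorem result (p : ℝ) (hp : 1 < p) :
    ∃ A₀ : Set ℝ, dimH A₀ < 1 ∧ ∀ α : ℝ, 0 < α → α ∉ A₀ →
      (∃ b : ℝ, 0 < b ∧ ∃ N₀ : ℕ, ∀ N : ℕ, N₀ ≤ N →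
        b * N * (Real.log N) ^ (-(1 / 2) : ℝ) ≤ (along α p Adm N : ℝ)) ∧
      ∀ T : Finset ℕ, (∀ L ∈ T, Adm L) → ∀ U ⊆ T,
        Tendsto (fun N : ℕ => (along α p (Exactly T U) N : ℝ) / along α p Adm N) atTop
          (𝓝 (cc ^ U.card * (1 - cc) ^ (T.card - U.card))) := by
  classical
  obtain ⟨A₀, hA₀, h⟩ := Pool.Agent.V1110.SpA.ratio_nat p hp
    (ι := Finset ℕ) (fun T => All T) (fun _ => Adm)
  refine ⟨A₀, hA₀, fun α hα hαA => ?_⟩
  obtain ⟨-, hprop, -, a, X₀, ha, hX₀⟩ := TwistsConductor49Proportion.result
  have hcA : ∀ X : ℕ, count (fun _ => True) X =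
      Nat.card {D : ℕ // (1 ≤ D ∧ D ≤ X) ∧ Adm D} := by
    intro X
    rw [count_card]
    simp only [and_true]
  have hQ : ∃ X0 : ℕ, ∀ X : ℕ, X0 ≤ X → a * X * (Real.log X) ^ (-(1 / 2) : ℝ) ≤
      (Nat.card {D : ℕ // (1 ≤ D ∧ D ≤ X) ∧ Adm D} : ℝ) :=
    ⟨X₀, fun X hX => by
      rw [← hcA]
      exact hX₀ X hX⟩
  have key : ∀ T : Finset ℕ, (∀ L ∈ T, Adm L) →
      Tendsto (fun N : ℕ => (along α p (All T) N : ℝ) / along α p Adm N) atTop
          (𝓝 (cc ^ T.card)) ∧
      ∃ b : ℝ, 0 < b ∧ ∃ N0 : ℕ, ∀ N : ℕ, N0 ≤ N →
        b * N * (Real.log N) ^ (-(1 / 2) : ℝ) ≤ (along α p Adm N : ℝ) := by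
    intro T hT
    refine h α hα hαA T _ a (1 / 2) ha (by norm_num) hQ ?_
    refine (hprop T hT).congr fun X => ?_
    rw [hcA, count_card]
    rfl
  refine ⟨(key ∅ (fun L hL => absurd hL (Finset.notMem_empty L))).2, ?_⟩
  -- inclusion and exclusion, one element of `T \ U` after the other
  have main : ∀ (V : Finset ℕ), ∀ U : Finset ℕ, (∀ L ∈ U ∪ V, Adm L) → Disjoint U V →
      Tendsto (fun N : ℕ => (along α p (Exactly (U ∪ V) U) N : ℝ) / along α p Adm N) atTop
          (𝓝 (cc ^ U.card * (1 - cc) ^ V.card)) := by
    intro V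
    induction V using Finset.induction_on with
    | empty =>
      intro U hU _
      rw [Finset.union_empty] at hU ⊢
      rw [Finset.card_empty, pow_zero, mul_one]
      refine (key U hU).1.congr fun N => ?_
      have e : All U = Exactly U U := by
        funext D
        apply propext
        unfold All Exactly
        refine and_congr_right fun _ => forall_congr' fun L => imp_congr_right fun hL => ?_
        simp [hL]
      rw [e]
    | insert L V hLV ih =>
      intro U hU hd
      have hLU : L ∉ U := fun h1 =>
        (Finset.disjoint_left.1 hd h1) (Finset.mem_insert_self _ _)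
      have hd' : Disjoint U V := Finset.disjoint_of_subset_right (Finset.subset_insert _ _) hd
      have h1 := ih U (fun M hM => hU M (by
        rcases Finset.mem_union.1 hM with h | h
        · exact Finset.mem_union_left _ h
        · exact Finset.mem_union_right _ (Finset.mem_insert_of_mem h))) hd'
      have h2 := ih (insert L U) (fun M hM => hU M (by
        rcases Finset.mem_union.1 hM with h | h
        · rcases Finset.mem_insert.1 h with rfl | h
          · exact Finset.mem_union_right _ (Finset.mem_insert_self _ _)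
          · exact Finset.mem_union_left _ h
        · exact Finset.mem_union_right _ (Finset.mem_insert_of_mem h))) (by
        rw [Finset.disjoint_insert_left]
        exact ⟨hLV, hd'⟩)
      have h3 := h1.sub h2
      have e1 : cc ^ U.card * (1 - cc) ^ V.card - cc ^ (insert L U).card * (1 - cc) ^ V.card =
          cc ^ U.card * (1 - cc) ^ (insert L V).card := by
        rw [Finset.card_insert_of_notMem hLU, Finset.card_insert_of_notMem hLV, pow_succ, pow_succ]
        ring
      rw [e1] at h3
      refine h3.congr fun N => ?_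
      have e2 : L ∉ U ∪ V := by
        rw [Finset.mem_union]
        exact fun h => h.elim hLU hLV
      have h4 := split_count α p (U ∪ V) U L e2 hLU N
      have e3 : insert L (U ∪ V) = U ∪ insert L V := by
        rw [Finset.union_insert]
      have e4 : insert L U ∪ V = insert L (U ∪ V) := Finset.insert_union L U V
      rw [e3] at h4
      rw [e4, e3, ← sub_div, h4]
      push_cast
      congr 1
      ring
  intro T hT U hUT
  have h1 := main (T \ U) U (fun L hL => hT L (by
    rw [Finset.union_sdiff_of_subset hUT] at hL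
    exact hL)) Finset.disjoint_sdiff
  rw [Finset.union_sdiff_of_subset hUT, Finset.card_sdiff_of_subset hUT] at h1
  exact h1

end Pool.Agent.Results.MP_4a9ea6_nt.SparseSequences
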