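import Pool.Agent.V11291.Q49.An
import Pool.Agent.V11291.Q49.Den

/-!
# The 2-part of the strong conjecture for the twists of `X_0(49)` by products of primes `≡ 1 mod 4`:
# the formula modulo two, and the exact (joint) proportion

`E_D` is the quadratic twist by `D` of `X_0(49) : y² + x y = x³ - x² - 2 x - 1`, where `D` is ANY
squarefree number all of whose prime factors are `1` modulo `4`; there is no condition on the number
of the prime factors, on the rank and on `Ш`. Let `z = L(E_D, 1) #E_D(ℚ)_tors² / (Ω ∏ c_p)`, which is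
zero or the order of `Ш(E_D)` according to the conjecture.

* For every `D` of the class `z` is an algebraic number which is integral at the primes above two, and
  the formula holds modulo `2`: `z` is a unit above two if and only if `E_D(ℚ)` is finite and
  `Ш(E_D)[2] = 0`, if and only if an explicit matrix over `𝔽₂`, made of quadratic residue symbols
  between the prime factors of `D` and of the quartic symbols of `-7`, is nonsingular. In this
  case `L(E_D, 1) ≠ 0` and `Ш(E_D)[2^∞] = 0`: the 2-part of the conjecture holds.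
* This is the case for a proportion of exactly `c = ∏_{i ≥ 0} (1 - 2^{-(2 i + 1)}) = 0.4194...` of the
  `D` of the class.
* More generally, for every finite set `T` of numbers of the class the 2-part holds for all the twists
  `E_{L D}`, `L ∈ T`, at once for a proportion of exactly `c ^ #T` of the `D` of the class: these events
  are asymptotically independent.
* The class has at least `b X / √(log X)` members up to `X`.

The values of the `L`-functions modulo powers of two, over `ℚ` and over number fields, are the work of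
helper698 and its team (`Pool/Agent/Y698`): division values of `℘`-functions and an induction over the
primes of `ℚ(√-7)` which divide `D`, the Tamagawa numbers are by helper890. New here: the descent over
`ℚ` for these `D` (`Q49/Sel`, `Alg`, `Conv`), and the exact joint proportion. The latter is proved
for general classes of primes (`V11291/GQ`) after the work of helper703 and its team for `X_0(14)`: large
sieve for the quadratic symbols, Gaussian-type distribution of the coranks; a bound for
the number of the products of primes for which a given product of quadratic symbols is trivial (from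
`L`-functions of quadratic characters) replaces the special class by the given one.
-/

set_option autoImplicit false

open scoped Classical
open NumberField IsDedekindDomain WeierstrassCurve MeasureTheory Filter Topology

namespace Pool.Agent.Results.MP_4a9ea6_nt.TwistsConductor49Proportion

open Pool.Agent.TH841.SH.D (Sha Pt)

/-- For `D ≡ 1 mod 4` the quadratic twist by `D` of the elliptic curve
`X_0(49) : y² + x y = x³ - x² - 2 x - 1`:
the curve `y² + x y = x³ - (3 D + 1) / 4 x² - 2 D² x - D³`. -/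
def twist (D : ℕ) : WeierstrassCurve ℤ := ⟨1, -((3 * D + 1) / 4), 0, -2 * D ^ 2, -D ^ 3⟩

/-- The curve given by the equation of `W` over the ring `R`. -/
abbrev base (W : WeierstrassCurve ℤ) (R : Type) [CommRing R] : WeierstrassCurve R :=
  W.map (Int.castRingHom R)

/-- The equation is minimal at the finite place `v` of `ℚ`: no change of variables over `ℚ` that
keeps the coefficients integral at `v` decreases the order of the discriminant. -/
def MinimalAt (W : WeierstrassCurve ℚ) (v : HeightOneSpectrum (𝓞 ℚ)) : Prop :=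
  ∀ C : VariableChange ℚ, v.valuation ℚ (C • W).a₁ ≤ 1 → v.valuation ℚ (C • W).a₂ ≤ 1 →
    v.valuation ℚ (C • W).a₃ ≤ 1 → v.valuation ℚ (C • W).a₄ ≤ 1 → v.valuation ℚ (C • W).a₆ ≤ 1 →
    v.valuation ℚ (C • W).Δ ≤ v.valuation ℚ W.Δ

/-- `W⁰(ℚ_v)`, the group of the points of `W` over the completion `ℚ_v` with nonsingular reduction:
the point at infinity and the points `(x, y)` where `x` is not integral, or one of the partial
derivatives of `y² + a₁ x y + a₃ y - x³ - a₂ x² - a₄ x - a₆` is a unit at `(x, y)`.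
Here `Pt W ℚ_v` is the group of the points of `W` over `ℚ_v`. -/
noncomputable def nonsing (W : WeierstrassCurve ℚ) (v : HeightOneSpectrum (𝓞 ℚ)) :
    AddSubgroup (Pt W (v.adicCompletion ℚ)) :=
  AddSubgroup.closure {P | ∀ x y h, P = Affine.Point.some x y h →
    1 < Valued.v x ∨
    Valued.v ((W.baseChange (v.adicCompletion ℚ)).a₁ * y -
      (3 * x ^ 2 + 2 * (W.baseChange (v.adicCompletion ℚ)).a₂ * x +
        (W.baseChange (v.adicCompletion ℚ)).a₄)) = 1 ∨
    Valued.v (2 * y + (W.baseChange (v.adicCompletion ℚ)).a₁ * x +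
      (W.baseChange (v.adicCompletion ℚ)).a₃) = 1}

/-- The Tamagawa number `c_v = [W(ℚ_v) : W⁰(ℚ_v)]` of a minimal equation. -/
noncomputable def c (W : WeierstrassCurve ℚ) (v : HeightOneSpectrum (𝓞 ℚ)) : ℕ :=
  (nonsing W v).index

/-- The product of the Tamagawa numbers. -/
noncomputable def Tam (W : WeierstrassCurve ℚ) : ℕ := ∏ᶠ v : HeightOneSpectrum (𝓞 ℚ), c W v

/-- `4 x³ + b₂ x² + 2 b₄ x + b₆ = (2 y + a₁ x + a₃)²`. -/
def cubic (W : WeierstrassCurve ℤ) {R : Type} [CommRing R] (x : R) : R :=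
  4 * x ^ 3 + W.b₂ * x ^ 2 + 2 * W.b₄ * x + W.b₆

/-- `Ω = ∫_{W(ℝ)} |ω|` with `ω = dx / (2 y + a₁ x + a₃)`, as an integral over `x`: two real points
lie over each `x` with `cubic x > 0`. -/
noncomputable def Omega (W : WeierstrassCurve ℤ) : ℝ :=
  2 * ∫ x in {x : ℝ | 0 < cubic W x}, 1 / √(cubic W x)

/-- The order of the torsion subgroup of `W(ℚ)`. -/
noncomputable def torsOrder (W : WeierstrassCurve ℤ) : ℕ :=
  Nat.card (AddCommGroup.torsion (base W ℚ).toAffine.Point)

/-- The order of the Tate-Shafarevich group predicted by the formula (in rank zero), for a curve with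
an equation that is minimal at all finite places and the value `l` of its L-function at `s = 1`:
`#W(ℚ)_tors² l / (Ω ∏ c_p)`. -/
noncomputable def anOrder (W : WeierstrassCurve ℤ) (l : ℂ) : ℂ :=
  l * (torsOrder W : ℂ) ^ 2 / ((Omega W : ℝ) * (Tam (base W ℚ) : ℂ))

/-- `1` if `m` is not a square modulo `p`, and `0` if it is -/
noncomputable def nonsq (p m : ℕ) : ZMod 2 := if IsSquare (m : ZMod p) then 0 else 1

/-- `1` if `-7` is not a fourth power modulo `p`, and `0` if it is -/
noncomputable def nonfourth (p : ℕ) : ZMod 2 := if ∃ y : ZMod p, y ^ 4 = -7 then 0 else 1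

/-- The prime factors of `D` which are inert in `ℚ(√-7)` (for the `D` of the class). -/
noncomputable def inert (D : ℕ) : Finset ℕ := D.primeFactors.filter fun p => ¬ IsSquare (-7 : ZMod p)

/-- The prime factors of `D` which split in `ℚ(√-7)` (for the `D` of the class). -/
noncomputable def split (D : ℕ) : Finset ℕ := D.primeFactors.filter fun p => IsSquare (-7 : ZMod p)

/-- The matrix over the field with two elements, with rows and columns indexed by `split D`: the entry
at `(i, j)` is `nonsq i j` for `i ≠ j`, and the entry at `(i, i)` is the sum of `nonfourth i` and of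
the `nonsq i l` for all the prime factors `l ≠ i` of `D`. -/
noncomputable def mat (D : ℕ) : Matrix (split D) (split D) (ZMod 2) := Matrix.of fun i j =>
  if i = j then nonfourth i + ∑ q ∈ inert D, nonsq i q + ∑ p ∈ (split D).erase i, nonsq i p
  else nonsq i j

/-- `D` is squarefree and all its prime factors are `1` modulo `4` -/
def Adm (D : ℕ) : Prop := Squarefree D ∧ ∀ p : ℕ, p.Prime → p ∣ D → p % 4 = 1

/-- the group `E_D(ℚ)` is finite and `Ш(E_D)` has no element of order two -/
def RankZeroShaTwo (D : ℕ) : Prop :=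
  Finite (base (twist D) ℚ).toAffine.Point ∧ ∀ x : Sha (base (twist D) ℚ), x + x = 0 → x = 0

/-- `Λ` is the `L`-function of `E_D`: entire, and equal to Mathlib's `L`-series of `E_D` over `ℚ`
(with all the Euler factors) for `Re s > 2` -/
def IsL (D : ℕ) (Λ : ℂ → ℂ) : Prop :=
  Differentiable ℂ Λ ∧ ∀ s : ℂ, 2 < s.re → Λ s = (base (twist D) ℚ).LSeries s

/-- The 2-part of the conjecture with odd terms: `E_D(ℚ)` is finite, `Ш(E_D)[2^∞] = 0`, the
`L`-function exists, `L(E_D, 1) ≠ 0`, and the number predicted for the order of `Ш(E_D)` is a unit at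
all the places above two. -/
def TwoPart (D : ℕ) : Prop :=
  Finite (base (twist D) ℚ).toAffine.Point ∧
  (∀ (n : ℕ) (y : Sha (base (twist D) ℚ)), 2 ^ n • y = 0 → y = 0) ∧
  ∃ Λ : ℂ → ℂ, IsL D Λ ∧ Λ 1 ≠ 0 ∧
    ∀ (Γ : Type) [LinearOrderedCommGroupWithZero Γ] (v : Valuation ℂ Γ), v 2 < 1 →
      v (anOrder (twist D) (Λ 1)) = 1

/-- the squarefree part of `L * D`, for squarefree `L` and `D`: the product of the primes that divide
exactly one of the two numbers -/
def tw (L D : ℕ) : ℕ := ∏ p ∈ symmDiff L.primeFactors D.primeFactors, p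

/-- the number of the `D ≤ X` of the class with `Q D` -/
noncomputable def count (Q : ℕ → Prop) (X : ℕ) : ℕ :=
  ((Finset.Icc 1 X).filter fun D => Adm D ∧ Q D).card

/-- `c = ∏_{i ≥ 0} (1 - 2^{-(2 i + 1)})` -/
noncomputable def cc : ℝ := ∏' i : ℕ, (1 - (1 / 2 : ℝ) ^ (2 * i + 1))

section proof

open Pool.Agent.Y698
open Pool.Agent.V11291.Q49 (AF BF FF Qs Ps)
open Pool.Agent.V11291.GQ (Cl)

lemma base_eq {D j : ℕ} (hj : D = 1 + 4 * j) (K : Type) [Field K] : base (twist D) K = AX K j :=
  twZ_map hj K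

lemma cubic_eq {D j : ℕ} (hj : D = 1 + 4 * j) {R : Type} [CommRing R] (x : R) :
    cubic (twist D) x = psD (1 + 4 * j) x := by
  have h1 : (3 * (D : ℤ) + 1) / 4 = 1 + 3 * j := by
    rw [hj]
    push_cast
    omega
  unfold cubic twist WeierstrassCurve.b₂ WeierstrassCurve.b₄ WeierstrassCurve.b₆ psD
  simp only
  rw [h1, hj]
  push_cast
  ring

lemma real_eq {D j : ℕ} (hj : D = 1 + 4 * j) : Omega (twist D) =
    ∫ x in {x : ℝ | 0 < psD (1 + 4 * j) x}, 2 / Real.sqrt (psD (1 + 4 * j) x) := by
  unfold Omega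
  simp only [cubic_eq hj]
  rw [← integral_const_mul]
  congr 1
  funext x
  ring

lemma tors_eq (W : WeierstrassCurve ℚ) :
    Nat.card (AddCommGroup.torsion W.toAffine.Point) = Pool.Agent.Y698.SG.tnum W :=
  congrArg (fun d : DecidableEq ℚ => Nat.card (@AddCommGroup.torsion _
    (@Affine.Point.instAddCommGroup ℚ _ W.toAffine d))) (Subsingleton.elim _ _)

lemma count_eq (Q R : ℕ → Prop) [DecidablePred R] (h : ∀ D, R D ↔ Adm D ∧ Q D) (X : ℕ) :
    ((Finset.Icc 1 X).filter R).card = count Q X := by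
  unfold count
  congr 1
  ext D
  rw [Finset.mem_filter, Finset.mem_filter, h]

lemma an_eq {D j : ℕ} (hj : D = 1 + 4 * j) (l : ℂ) :
    anOrder (twist D) l = Pool.Agent.Y698.SG.quoT ℚ j l := by
  have h1 : (discr ℚ : ℤ) = 1 := Rat.numberField_discr
  have h2 : InfinitePlace.nrRealPlaces ℚ = 1 :=
    InfinitePlace.nrRealPlaces_eq_one_of_finrank_eq_one Pool.Agent.V11291.Q49.finQ
  have h3 : InfinitePlace.nrComplexPlaces ℚ = 0 :=
    InfinitePlace.nrComplexPlaces_eq_zero_of_finrank_eq_one Pool.Agent.V11291.Q49.finQ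
  unfold anOrder torsOrder
  rw [base_eq hj, real_eq hj, tors_eq]
  unfold Pool.Agent.Y698.SG.quoT
  rw [h1, h2, h3, pow_one, pow_zero, mul_one]
  have hT : Tam (Pool.Agent.Y698.AX ℚ j) = ∏ᶠ v, Pool.Agent.Y698.tam (Pool.Agent.Y698.AX ℚ j) v := rfl
  rw [hT, Int.cast_one, abs_one, Real.sqrt_one, Complex.ofReal_one, mul_one]

lemma adm_iff (D : ℕ) : Adm D ↔ Squarefree D ∧ Cl (AF ∅) (BF ∅) D.primeFactors := by
  refine and_congr_right fun hD => ?_
  constructor
  · intro h p hp
    have h1 := Nat.prime_of_mem_primeFactors hp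
    have h2 := h p h1 (Nat.dvd_of_mem_primeFactors hp)
    by_cases h7 : IsSquare (-7 : ZMod p)
    · exact Or.inl ⟨h1, h2, h7, fun r hr => absurd hr (Finset.notMem_empty r)⟩
    · exact Or.inr ⟨h1, h2, h7, Finset.notMem_empty p⟩
  · intro h p hp hd
    rcases h p (Nat.mem_primeFactors.2 ⟨hp, hd, hD.ne_zero⟩) with h1 | h1
    · exact h1.2.1
    · exact h1.2.1

lemma ff0 : FF ∅ := fun r hr => absurd hr (Finset.notMem_empty r)

/-- the facts about one twist -/
lemma main {D : ℕ} (hD : Adm D) :
    (∀ v : HeightOneSpectrum (𝓞 ℚ), MinimalAt (base (twist D) ℚ) v) ∧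
    (∃ t : ℕ, Odd t ∧ torsOrder (twist D) = 2 * t) ∧
    Tam (base (twist D) ℚ) = 2 ^ (1 + (inert D).card + 2 * (split D).card) ∧
    (∃ Λ : ℂ → ℂ, IsL D Λ ∧
      (∃ m : ℤ, Odd m ∧ _root_.IsIntegral ℤ ((m : ℂ) * anOrder (twist D) (Λ 1))) ∧
      ∀ (Γ : Type) [LinearOrderedCommGroupWithZero Γ] (v : Valuation ℂ Γ), v 2 < 1 →
        v (anOrder (twist D) (Λ 1)) ≤ 1 ∧
        (v (anOrder (twist D) (Λ 1)) = 1 ↔ RankZeroShaTwo D)) ∧
    (RankZeroShaTwo D ↔ (mat D).det ≠ 0) ∧
    (RankZeroShaTwo D → TwoPart D) := by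
  have hm4 : D % 4 = 1 := by
    have h1 := Pool.Agent.V11291.GQ.prod4 D.primeFactors fun p hp =>
      ⟨Nat.prime_of_mem_primeFactors hp, hD.2 p (Nat.prime_of_mem_primeFactors hp)
        (Nat.dvd_of_mem_primeFactors hp)⟩
    rwa [Nat.prod_primeFactors_of_squarefree hD.1] at h1
  obtain ⟨j, hj⟩ : ∃ j, D = 1 + 4 * j := ⟨D / 4, by omega⟩
  have hQ : ∀ q ∈ inert D, Inq q := by
    intro q hq
    unfold inert at hq
    rw [Finset.mem_filter] at hq
    have h1 := Nat.prime_of_mem_primeFactors hq.1
    exact ⟨h1, hD.2 q h1 (Nat.dvd_of_mem_primeFactors hq.1), hq.2⟩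
  have hP : ∀ p ∈ split D, Pool.Agent.Y698.SG.Spl p := by
    intro p hp
    unfold split at hp
    rw [Finset.mem_filter] at hp
    have h1 := Nat.prime_of_mem_primeFactors hp.1
    exact ⟨h1, hD.2 p h1 (Nat.dvd_of_mem_primeFactors hp.1), hp.2⟩
  have hun : inert D ∪ split D = D.primeFactors := Pool.Agent.V11291.Q49.qs_ps _
  have hprod : ∏ q ∈ inert D ∪ split D, q = 1 + 4 * j := by
    rw [hun, Nat.prod_primeFactors_of_squarefree hD.1, hj]
  have hgp : ∀ q ∈ inert D ∪ split D, Pool.Agent.Y698.SG.Gp q := by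
    intro q hq
    rcases Finset.mem_union.1 hq with h | h
    · exact Pool.Agent.Y698.SG.Gp.of_inq (hQ q h)
    · exact Pool.Agent.Y698.SG.Gp.of_spl (hP q h)
  obtain ⟨r, hir, hrS⟩ := Pool.Agent.V11291.Q49.exists_aux (inert D ∪ split D)
  have : Fact r.Prime := ⟨hir.pr⟩
  have hM : IsCyclotomicExtension {r} ℚ (CyclotomicField r ℚ) := cyc_inst r
  have hmin : ∀ v : HeightOneSpectrum (𝓞 ℚ), MinimalAt (base (twist D) ℚ) v := by
    intro v
    rw [base_eq hj]
    exact Pool.Agent.Y698.SG.minimal_E (CyclotomicField r ℚ) ℚ hir.ns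
      (fun q hq => ⟨hgp q hq, fun h => hrS (h ▸ hq)⟩) hprod v
  have htors : ∃ t : ℕ, Odd t ∧ torsOrder (twist D) = 2 * t := by
    obtain ⟨t, ht, h1⟩ := Pool.Agent.Y698.SG.tnum_AX (CyclotomicField r ℚ) ℚ hir.ns j
    refine ⟨t, ht, ?_⟩
    unfold torsOrder
    rw [base_eq hj, tors_eq]
    exact h1
  have htam : Tam (base (twist D) ℚ) = 2 ^ (1 + (inert D).card + 2 * (split D).card) := by
    rw [base_eq hj, add_assoc]
    exact Pool.Agent.V11291.Q49.tam_Q hQ hP hprod
  have hmat : mat D = Pool.Agent.Y698.SG.mat (inert D) (split D) := rfl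
  have hz : RankZeroShaTwo D ↔ (mat D).det ≠ 0 := by
    unfold RankZeroShaTwo
    rw [hmat, Pool.Agent.V11291.Q49.equiv_Q hQ hP hprod, base_eq hj]
  obtain ⟨Λ, h1, h2, h3⟩ := Pool.Agent.V11291.Q49.level_Q hQ hP hprod
  have hL : IsL D Λ := ⟨h1, fun s hs => by rw [h2 s hs, base_eq hj]⟩
  have h3' : ∀ (Γ : Type) [LinearOrderedCommGroupWithZero Γ] (v : Valuation ℂ Γ), v 2 < 1 →
      v (anOrder (twist D) (Λ 1)) ≤ 1 ∧
      (v (anOrder (twist D) (Λ 1)) = 1 ↔ RankZeroShaTwo D) := by
    intro Γ _ v hv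
    rw [an_eq hj, hz, hmat]
    exact h3 Γ v hv
  refine ⟨hmin, htors, htam, ⟨Λ, hL, Pool.Agent.Y698.int_of_val fun Γ _ v hv => (h3' Γ v hv).1, h3'⟩,
    hz, fun hR => ⟨hR.1, ?_, Λ, hL, ?_, fun Γ _ v hv => ((h3' Γ v hv).2).2 hR⟩⟩
  · intro n
    induction n with
    | zero =>
      intro y hy
      rw [pow_zero, one_smul] at hy
      exact hy
    | succ n ih =>
      intro y hy
      refine ih y (hR.2 _ ?_)
      rw [← two_nsmul, ← mul_smul, ← pow_succ']
      exact hy
  · intro h0
    refine Pool.Agent.Y698.SG.exists_val2 fun Γ _ v hv => ?_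
    have h5 := ((h3' Γ v hv).2).2 hR
    rw [h0] at h5
    unfold anOrder at h5
    rw [zero_mul, zero_div, map_zero] at h5
    exact zero_ne_one h5

lemma two_iff {D : ℕ} (hD : Adm D) : TwoPart D ↔ RankZeroShaTwo D := by
  refine ⟨fun h => ⟨h.1, fun x hx => h.2.1 1 x ?_⟩, (main hD).2.2.2.2.2⟩
  rw [pow_one, two_nsmul]
  exact hx

end proof

/-- **Main theorem.**
(1) For every squarefree `D` with all prime factors `1` modulo `4`: the equation is minimal, the order of
the torsion group is twice an odd number, `∏ c_p = 2 ^ (1 + #inert + 2 #split)`, the `L`-function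
exists, the number predicted for the order of `Ш(E_D)` is integral at the places above two, and it is a
unit at one (at each) of them if and only if `E_D(ℚ)` is finite and `Ш(E_D)[2] = 0`; this is decided by the
matrix `mat D`, and then the 2-part of the conjecture holds.
(2) For every finite set `T` of numbers of the class, the proportion of the `D` of the class such that
the 2-part of the conjecture holds for `E_{L D}` for all `L ∈ T` is exactly `c ^ #T`, with
`c = ∏_{i ≥ 0} (1 - 2^{-(2 i + 1)})`, `0.4194 < c < 0.4195`.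
(3) The number of the `D ≤ X` of the class is at least a positive constant times `X (log X)^(-1/2)`. -/
theorem result :
    (∀ D : ℕ, Adm D →
      (∀ v : HeightOneSpectrum (𝓞 ℚ), MinimalAt (base (twist D) ℚ) v) ∧
      (∃ t : ℕ, Odd t ∧ torsOrder (twist D) = 2 * t) ∧
      Tam (base (twist D) ℚ) = 2 ^ (1 + (inert D).card + 2 * (split D).card) ∧
      (∃ Λ : ℂ → ℂ, IsL D Λ ∧
        (∃ m : ℤ, Odd m ∧ _root_.IsIntegral ℤ ((m : ℂ) * anOrder (twist D) (Λ 1))) ∧
        ∀ (Γ : Type) [LinearOrderedCommGroupWithZero Γ] (v : Valuation ℂ Γ), v 2 < 1 →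
          v (anOrder (twist D) (Λ 1)) ≤ 1 ∧
          (v (anOrder (twist D) (Λ 1)) = 1 ↔ RankZeroShaTwo D)) ∧
      (RankZeroShaTwo D ↔ (mat D).det ≠ 0) ∧
      (RankZeroShaTwo D → TwoPart D)) ∧
    (∀ T : Finset ℕ, (∀ L ∈ T, Adm L) →
      Tendsto (fun X : ℕ => (count (fun D => ∀ L ∈ T, TwoPart (tw L D)) X : ℝ) /
        (count (fun _ => True) X : ℝ)) atTop (𝓝 (cc ^ T.card))) ∧
    (0.4194 < cc ∧ cc < 0.4195) ∧
    ∃ (b : ℝ) (X₀ : ℕ), 0 < b ∧ ∀ X : ℕ, X₀ ≤ X →
      b * X * (Real.log X) ^ (-(1 / 2) : ℝ) ≤ (count (fun _ => True) X : ℝ) := by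
  refine ⟨fun D hD => main hD, fun T hT => ?_, Pool.Agent.Y948.CQ.t_C2.2.2.2, ?_⟩
  · have h := Pool.Agent.V11291.Q49.den_F ff0 T (fun L hL => (adm_iff L).1 (hT L hL)) TwoPart
      fun D h1 h2 => ?_
    · refine h.congr fun X => ?_
      rw [count_eq (fun D => ∀ L ∈ T, TwoPart (tw L D)) _ (fun D => by rw [adm_iff]; rfl) X,
        count_eq (fun _ => True) _ (fun D => by rw [adm_iff]; tauto) X]
    · have hD : Adm D := (adm_iff D).2 ⟨h1, h2⟩
      rw [two_iff hD, (main hD).2.2.2.2.1, Pool.Agent.V11291.Q49.gd_mat h2]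
      rfl
  · obtain ⟨b, X₀, hb, h⟩ := Pool.Agent.V11291.Q49.low_F ff0
    refine ⟨b, X₀, hb, fun X hX => ?_⟩
    have h1 := h X hX
    have e1 : (-1 + (1 / 2 ^ ((∅ : Finset ℕ).card + 2) + 1 / 4) : ℝ) = -(1 / 2) := by
      rw [Finset.card_empty]
      norm_num
    rw [e1] at h1
    refine h1.trans (le_of_eq ?_)
    rw [count_eq (fun _ => True) _ (fun D => by rw [adm_iff]; tauto) X]

end Pool.Agent.Results.MP_4a9ea6_nt.TwistsConductor49Proportion
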